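import Pool.Agent.W97.KE.Stm

/-! Project KE: topological generators of the Galois group of the cyclotomic tower. -/

set_option autoImplicit false

namespace Pool.Agent.W398.KE

open Pool.Agent.W97.KE

/-- an element acting trivially on the `p`-th roots of unity acts on the `N`-th ones, `p ∣ N`, with
an exponent congruent to `1` modulo `p` -/
lemma exists_val {p N : ℕ} (hp : p.Prime) (hN : 1 < N) (hpN : p ∣ N) {u : (ZMod N)ˣ} {h : GQ}
    (hu : IsSig N u h) (hh : ∀ z : Qb, z ^ p = 1 → h z = z) :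
    ∃ a : ℕ, (u : ZMod N).val = 1 + p * a := by
  have : NeZero p := ⟨hp.ne_zero⟩
  have hN2 : Fact (1 < N) := ⟨hN⟩
  have : NeZero N := ⟨by omega⟩
  obtain ⟨ζ, hζ⟩ := HasEnoughRootsOfUnity.exists_primitiveRoot Qb p
  obtain ⟨d, hd⟩ := hpN
  have h1 : ζ ^ N = 1 := by rw [hd, pow_mul, hζ.pow_eq_one, one_pow]
  have h2 := hu ζ h1
  rw [hh ζ hζ.pow_eq_one] at h2
  have h3 : (u : ZMod N).val ≠ 0 := by
    intro h0
    have := (ZMod.val_eq_zero _).1 h0
    exact u.ne_zero this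
  obtain ⟨v, hv⟩ := Nat.exists_eq_succ_of_ne_zero h3
  rw [hv, pow_succ] at h2
  have h4 : ζ ^ v = 1 := by
    have h5 : ζ ≠ 0 := hζ.ne_zero hp.ne_zero
    have h6 : ζ ^ v * ζ = 1 * ζ := by rw [one_mul]; exact h2.symm
    exact mul_right_cancel₀ h5 h6
  obtain ⟨a, ha⟩ := (hζ.pow_eq_one_iff_dvd v).1 h4
  exact ⟨a, by rw [hv, ha, Nat.succ_eq_add_one, add_comm]⟩

/-- the elements congruent to `1` modulo `p` are powers of one which is not congruent to `1` modulo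
`p ^ 2` -/
lemma mem_powers_of {p n : ℕ} (hp : p.Prime) (hp2 : p ≠ 2) {x y : (ZMod (p ^ (n + 1)))ˣ}
    {a b : ℕ} (hx : (x : ZMod (p ^ (n + 1))).val = 1 + p * b)
    (hy : (y : ZMod (p ^ (n + 1))).val = 1 + p * a) (ha : ¬ p ∣ a) : ∃ j : ℕ, x = y ^ j := by
  classical
  have : NeZero (p ^ (n + 1)) := ⟨pow_ne_zero _ hp.ne_zero⟩
  have hcyc : IsCyclic (ZMod (p ^ (n + 1)))ˣ := ZMod.isCyclic_units_of_prime_pow p hp hp2 (n + 1)
  have hval : ∀ (u : (ZMod (p ^ (n + 1)))ˣ) (c : ℕ), (u : ZMod (p ^ (n + 1))).val = 1 + p * c →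
      (u : ZMod (p ^ (n + 1))) = 1 + (p : ZMod (p ^ (n + 1))) * ((c : ℤ) : ZMod (p ^ (n + 1))) := by
    intro u c hc
    rw [← ZMod.natCast_zmod_val (u : ZMod (p ^ (n + 1))), hc]
    push_cast
    rfl
  have hoy : orderOf y = p ^ n := by
    rw [← orderOf_units, hval y a hy]
    refine ZMod.orderOf_one_add_mul_prime hp hp2 (a : ℤ) ?_ n
    exact_mod_cast ha
  have hxp : x ^ p ^ n = 1 := by
    apply Units.ext
    rw [Units.val_pow_eq_pow_val, hval x b hx, Units.val_one]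
    have h1 : ((p : ℤ)) ∣ (1 + (p : ℤ) * (b : ℤ)) - 1 := ⟨b, by ring⟩
    have h2 := dvd_sub_pow_of_dvd_sub h1 n
    have h3 : (((1 + (p : ℤ) * (b : ℤ)) ^ p ^ n - 1 ^ p ^ n : ℤ) : ZMod (p ^ (n + 1))) = 0 := by
      rw [ZMod.intCast_zmod_eq_zero_iff_dvd]
      push_cast
      exact h2
    push_cast at h3
    rw [one_pow, sub_eq_zero] at h3
    push_cast
    exact h3
  have hyp : y ^ p ^ n = 1 := by rw [← hoy]; exact pow_orderOf_eq_one y
  set S : Finset (ZMod (p ^ (n + 1)))ˣ := Finset.univ.filter fun u => u ^ p ^ n = 1 with hS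
  have hcard : S.card ≤ p ^ n := IsCyclic.card_pow_eq_one_le (pow_pos hp.pos n)
  have himg : (Finset.range (p ^ n)).image (fun j => y ^ j) = S := by
    refine Finset.eq_of_subset_of_card_le ?_ ?_
    · intro u hu
      obtain ⟨j, -, rfl⟩ := Finset.mem_image.1 hu
      refine Finset.mem_filter.2 ⟨Finset.mem_univ _, ?_⟩
      rw [← pow_mul, mul_comm, pow_mul, hyp, one_pow]
    · rw [Finset.card_image_of_injOn, Finset.card_range]
      · exact hcard
      · intro i hi j hj hij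
        rw [Finset.coe_range, Set.mem_Iio, ← hoy] at hi hj
        exact pow_injOn_Iio_orderOf hi hj hij
  have hxS : x ∈ S := Finset.mem_filter.2 ⟨Finset.mem_univ _, hxp⟩
  rw [← himg] at hxS
  obtain ⟨j, -, hj⟩ := Finset.mem_image.1 hxS
  exact ⟨j, hj.symm⟩

theorem s_gen : S_GEN := by
  rintro ⟨-, hS2, hS3, -⟩ p hp hp2 g hg ⟨z₀, hz₀, hgz₀⟩ G n hGn hgG hlift h
  obtain ⟨h', hh', hhz⟩ := hlift h
  set k : GQ := h'⁻¹ * h with hk
  have hkz : ∀ z : Qb, z ^ p = 1 → k z = z := by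
    intro z hz
    show h'⁻¹ (h z) = z
    rw [hhz z hz]
    show (h'⁻¹ * h') z = z
    rw [inv_mul_cancel]
    rfl
  have hhk : h = h' * k := by rw [hk, mul_inv_cancel_left]
  rw [hhk]
  refine G.mul_mem hh' ?_
  rcases Nat.eq_zero_or_pos n with rfl | hn
  · refine hGn k fun z hz => hkz z ?_
    rwa [zero_add, pow_one] at hz
  have hN1 : 1 < p ^ (n + 1) := Nat.one_lt_pow (by omega) hp.one_lt
  have hpN : p ∣ p ^ (n + 1) := dvd_pow_self p (by omega)
  obtain ⟨x, hx⟩ := hS2 (p ^ (n + 1)) hN1.le k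
  obtain ⟨y, hy⟩ := hS2 (p ^ (n + 1)) hN1.le g
  obtain ⟨b, hb⟩ := exists_val hp hN1 hpN hx hkz
  obtain ⟨a, ha⟩ := exists_val hp hN1 hpN hy hg
  have hpa : ¬ p ∣ a := by
    rintro ⟨c, rfl⟩
    apply hgz₀
    have h1 : z₀ ^ p ^ (n + 1) = 1 := by
      obtain ⟨m, rfl⟩ := Nat.exists_eq_succ_of_ne_zero hn.ne'
      rw [show m.succ + 1 = 2 + m by omega, pow_add, pow_mul, hz₀, one_pow]
    rw [hy z₀ h1, ha, pow_add, pow_one, ← mul_assoc, ← pow_two, pow_mul, hz₀, one_pow, mul_one]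
  obtain ⟨j, hj⟩ := mem_powers_of hp hp2 hb ha hpa
  have hone : IsSig (p ^ (n + 1)) 1 1 := by
    have h1 := (hS3 _ hN1.le y y g g hy hy).2.1
    have h2 := (hS3 _ hN1.le y y⁻¹ g g⁻¹ hy h1).1
    rwa [mul_inv_cancel, mul_inv_cancel] at h2
  have hpow : ∀ j : ℕ, IsSig (p ^ (n + 1)) (y ^ j) (g ^ j) := by
    intro j
    induction j with
    | zero => rw [pow_zero, pow_zero]; exact hone
    | succ j ih =>
      have h1 := (hS3 _ hN1.le _ _ _ _ ih hy).1
      rwa [← pow_succ y j, ← pow_succ g j] at h1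
  have h5 := (hS3 _ hN1.le x (y ^ j) k (g ^ j) hx (hpow j)).2.2.1 hj
  have h6 : (g ^ j)⁻¹ * k ∈ G := hGn _ h5
  have h7 : k = g ^ j * ((g ^ j)⁻¹ * k) := by rw [mul_inv_cancel_left]
  rw [h7]
  exact G.mul_mem (G.pow_mem hgG j) h6

end Pool.Agent.W398.KE
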